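import Pool.Agent.H847R3.XpXqF

/-!
Fourier coefficients of the dilates of an atomless measure along a sequence of integers `a n` such
that `a n * θ` is equidistributed modulo one, to first order, for every irrational `θ`.
-/

set_option autoImplicit false

open MeasureTheory Filter Topology Set

namespace Pool.Agent.H793R3.Fur

abbrev T := UnitAddCircle

/-- `1/N ∑_{n<N} e(a n θ) → 0` for every irrational `θ`. -/
def Spread (a : ℕ → ℤ) : Prop :=
  ∀ θ : ℝ, Irrational θ → Tendsto (fun N : ℕ => (N : ℂ)⁻¹ * ∑ n ∈ Finset.range N,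
    fourier (a n) (θ : T)) atTop (𝓝 0)

theorem spread_mul {a : ℕ → ℤ} (ha : Spread a) {m : ℤ} (hm : m ≠ 0) :
    Spread (fun n => m * a n) := by
  intro θ hθ
  have h := ha (m * θ) (hθ.intCast_mul hm)
  refine h.congr fun N => ?_
  congr 1
  refine Finset.sum_congr rfl fun n _ => ?_
  rw [fourier_apply, fourier_apply]
  congr 2
  rw [← AddCircle.coe_zsmul, ← AddCircle.coe_zsmul]
  congr 1
  simp only [zsmul_eq_mul]
  push_cast
  ring

/-- the points of `T` with rational coordinate form a countable set -/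
theorem countable_rat (x : T) : {y : T | ∃ r : ℚ, x - y = ((r : ℝ) : T)}.Countable := by
  have : {y : T | ∃ r : ℚ, x - y = ((r : ℝ) : T)} ⊆ range fun r : ℚ => x - ((r : ℝ) : T) := by
    rintro y ⟨r, hr⟩
    exact ⟨r, by simp [← hr]⟩
  exact (countable_range _).mono this

noncomputable def g (a : ℕ → ℤ) (N : ℕ) (z : T × T) : ℝ :=
  ‖(N : ℂ)⁻¹ * ∑ n ∈ Finset.range N, (fourier (a n) z.1 * fourier (-(a n)) z.2 : ℂ)‖

theorem g_cont (a : ℕ → ℤ) (N : ℕ) : Continuous (g a N) := by
  unfold g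
  refine Continuous.norm (continuous_const.mul ?_)
  refine continuous_finsetSum _ fun n _ => ?_
  exact ((fourier (a n)).continuous.comp continuous_fst).mul
    ((fourier (-(a n))).continuous.comp continuous_snd)

theorem norm_fourier_eq (n : ℤ) (x : T) : ‖(fourier n x : ℂ)‖ = 1 := by
  rw [fourier_apply]; exact Circle.norm_coe _

theorem g_le (a : ℕ → ℤ) (N : ℕ) (z : T × T) : g a N z ≤ 1 := by
  unfold g
  rcases Nat.eq_zero_or_pos N with rfl | hN
  · simp
  have hN' : (0 : ℝ) < N := by exact_mod_cast hN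
  rw [norm_mul, norm_inv]
  have h1 : ‖∑ n ∈ Finset.range N, (fourier (a n) z.1 * fourier (-(a n)) z.2 : ℂ)‖ ≤ N := by
    refine (norm_sum_le _ _).trans ?_
    have : ∀ n ∈ Finset.range N, ‖(fourier (a n) z.1 * fourier (-(a n)) z.2 : ℂ)‖ ≤ 1 := by
      intro n _
      rw [norm_mul, norm_fourier_eq, norm_fourier_eq, one_mul]
    refine (Finset.sum_le_sum this).trans ?_
    simp
  rw [Complex.norm_natCast, inv_mul_le_iff₀ hN']
  simpa using h1

theorem g_tendsto {a : ℕ → ℤ} (ha : Spread a) {z : T × T}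
    (hz : ¬ ∃ r : ℚ, z.1 - z.2 = ((r : ℝ) : T)) :
    Tendsto (fun N => g a N z) atTop (𝓝 0) := by
  obtain ⟨θ, hθ⟩ := QuotientAddGroup.mk_surjective (z.1 - z.2)
  have hirr : Irrational θ := by
    intro ⟨r, hr⟩
    exact hz ⟨r, by rw [hr]; exact hθ.symm⟩
  have h := (ha θ hirr).norm
  rw [norm_zero] at h
  refine h.congr fun N => ?_
  unfold g
  congr 2
  refine Finset.sum_congr rfl fun n _ => ?_
  have e : (θ : T) = z.1 + (-z.2) := by
    rw [← sub_eq_add_neg]; exact hθ
  rw [e]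
  simp only [fourier_apply, smul_add, AddCircle.toCircle_add, Circle.coe_mul, smul_neg, neg_smul]

theorem null_rat {μ : Measure T} [IsProbabilityMeasure μ] (h0 : ∀ x, μ {x} = 0) :
    ∀ᵐ z ∂(μ.prod μ), ¬ ∃ r : ℚ, z.1 - z.2 = ((r : ℝ) : T) := by
  have hset : MeasurableSet {z : T × T | ∃ r : ℚ, z.1 - z.2 = ((r : ℝ) : T)} := by
    have : {z : T × T | ∃ r : ℚ, z.1 - z.2 = ((r : ℝ) : T)} =
        ⋃ r : ℚ, {z : T × T | z.1 - z.2 = ((r : ℝ) : T)} := by
      ext z; simp
    rw [this]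
    refine MeasurableSet.iUnion fun r => ?_
    exact (isClosed_eq (continuous_fst.sub continuous_snd) continuous_const).measurableSet
  rw [ae_iff]
  simp only [not_not]
  rw [Measure.measure_prod_null hset]
  refine Eventually.of_forall fun x => ?_
  have hc := countable_rat x
  have : Prod.mk x ⁻¹' {z : T × T | ∃ r : ℚ, z.1 - z.2 = ((r : ℝ) : T)} =
      {y : T | ∃ r : ℚ, x - y = ((r : ℝ) : T)} := rfl
  change μ (Prod.mk x ⁻¹' {z : T × T | ∃ r : ℚ, z.1 - z.2 = ((r : ℝ) : T)}) = 0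
  rw [this]
  have : NullSingletonClass μ := ⟨h0⟩
  exact hc.measure_zero μ

theorem int_g_tendsto {a : ℕ → ℤ} (ha : Spread a) {μ : Measure T} [IsProbabilityMeasure μ]
    (h0 : ∀ x, μ {x} = 0) :
    Tendsto (fun N => ∫ z, g a N z ∂(μ.prod μ)) atTop (𝓝 0) := by
  have h := tendsto_integral_of_dominated_convergence (μ := μ.prod μ) (F := fun N => g a N)
    (f := fun _ => (0 : ℝ)) (fun _ => (1 : ℝ))
    (fun N => (g_cont a N).aestronglyMeasurable) (integrable_const _)
    (fun N => Eventually.of_forall fun z => by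
      rw [Real.norm_of_nonneg (by unfold g; exact norm_nonneg _)]; exact g_le a N z)
    ((null_rat h0).mono fun z hz => g_tendsto ha hz)
  simpa using h

/-- the mean square of the Fourier coefficients along `a` tends to zero -/
theorem wiener {a : ℕ → ℤ} (ha : Spread a) {μ : Measure T} [IsProbabilityMeasure μ]
    (h0 : ∀ x, μ {x} = 0) :
    Tendsto (fun N : ℕ => (N : ℝ)⁻¹ * ∑ n ∈ Finset.range N, ‖∫ x, fourier (a n) x ∂μ‖ ^ 2)
      atTop (𝓝 0) := by
  refine squeeze_zero (fun N => by positivity) (fun N => ?_) (int_g_tendsto ha h0)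
  have hint : ∀ n : ℕ, Integrable (fun z : T × T =>
      (fourier (a n) z.1 * fourier (-(a n)) z.2 : ℂ)) (μ.prod μ) := by
    intro n
    have hc : Continuous (fun z : T × T => (fourier (a n) z.1 * fourier (-(a n)) z.2 : ℂ)) :=
      ((fourier (a n)).continuous.comp continuous_fst).mul
        ((fourier (-(a n))).continuous.comp continuous_snd)
    refine Integrable.of_bound hc.aestronglyMeasurable 1 (Eventually.of_forall fun z => ?_)
    rw [norm_mul, norm_fourier_eq, norm_fourier_eq, one_mul]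
  have key : ((((N : ℝ)⁻¹ * ∑ n ∈ Finset.range N, ‖∫ x, fourier (a n) x ∂μ‖ ^ 2 : ℝ)) : ℂ) =
      ∫ z, ((N : ℂ)⁻¹ * ∑ n ∈ Finset.range N,
        (fourier (a n) z.1 * fourier (-(a n)) z.2 : ℂ)) ∂(μ.prod μ) := by
    rw [integral_const_mul, integral_finsetSum _ fun n _ => hint n]
    push_cast
    congr 1
    refine Finset.sum_congr rfl fun n _ => ?_
    rw [integral_prod_mul (f := fun x : T => (fourier (a n) x : ℂ))
      (g := fun y : T => (fourier (-(a n)) y : ℂ))]
    have h1 : ∫ y : T, (fourier (-(a n)) y : ℂ) ∂μ =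
        (starRingEnd ℂ) (∫ y : T, (fourier (a n) y : ℂ) ∂μ) := by
      rw [← integral_conj]
      congr 1
      funext y
      rw [fourier_neg]
    rw [h1, Complex.mul_conj, Complex.normSq_eq_norm_sq]
    push_cast
    rfl
  have hnn : 0 ≤ (N : ℝ)⁻¹ * ∑ n ∈ Finset.range N, ‖∫ x, fourier (a n) x ∂μ‖ ^ 2 := by positivity
  calc (N : ℝ)⁻¹ * ∑ n ∈ Finset.range N, ‖∫ x, fourier (a n) x ∂μ‖ ^ 2
      = ‖(((N : ℝ)⁻¹ * ∑ n ∈ Finset.range N, ‖∫ x, fourier (a n) x ∂μ‖ ^ 2 : ℝ) : ℂ)‖ := by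
        rw [Complex.norm_real, Real.norm_of_nonneg hnn]
    _ ≤ ∫ z, g a N z ∂(μ.prod μ) := by
        rw [key]
        exact norm_integral_le_integral_norm _

end Pool.Agent.H793R3.Fur
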