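import Pool.Agent.H793R3.Fur.A

/-!
Dilates `(k •)_* μ` of an atomless measure, and of a counterexample to Furstenberg's conjecture.
-/

set_option autoImplicit false

open MeasureTheory Filter Topology Set

namespace Pool.Agent.H793R3.Fur

/-- the image of `μ` under `x ↦ k x` -/
noncomputable def dil (k : ℤ) (μ : Measure T) : Measure T := μ.map (fun x : T => k • x)

theorem meas (k : ℤ) : Measurable (fun x : T => k • x) := (continuous_zsmul k).measurable

theorem coeff_dil (k m : ℤ) (μ : Measure T) :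
    ∫ x, fourier m x ∂(dil k μ) = ∫ x, fourier (m * k) x ∂μ := by
  unfold dil
  rw [integral_map (meas k).aemeasurable (fourier m).continuous.aestronglyMeasurable]
  congr 1
  funext x
  rw [fourier_apply, fourier_apply, smul_smul]

open Classical in
/-- most dilates have small Fourier coefficients -/
theorem few_large {a : ℕ → ℤ} (ha : Spread a) {μ : Measure T} [IsProbabilityMeasure μ]
    (h0 : ∀ x, μ {x} = 0) {m : ℤ} (hm : m ≠ 0) {ε : ℝ} (hε : 0 < ε) :
    Tendsto (fun N : ℕ => (((Finset.range N).filter fun n =>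
      ε ≤ ‖∫ x, fourier m x ∂(dil (a n) μ)‖).card : ℝ) / N) atTop (𝓝 0) := by
  have hw := (wiener (spread_mul ha hm) h0).const_mul (ε ^ 2)⁻¹
  rw [mul_zero] at hw
  refine squeeze_zero (fun N => by positivity) (fun N => ?_) hw
  have h1 : (((Finset.range N).filter fun n =>
      ε ≤ ‖∫ x, fourier m x ∂(dil (a n) μ)‖).card : ℝ) * ε ^ 2 ≤
      ∑ n ∈ Finset.range N, ‖∫ x, fourier (m * a n) x ∂μ‖ ^ 2 := by
    rw [← nsmul_eq_mul, ← Finset.sum_const]
    refine (Finset.sum_le_sum fun n hn => ?_).trans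
      (Finset.sum_le_sum_of_subset_of_nonneg (Finset.filter_subset _ _) fun n _ _ => by positivity)
    rw [Finset.mem_filter, coeff_dil] at hn
    exact pow_le_pow_left₀ hε.le hn.2 2
  rw [div_eq_inv_mul, ← mul_assoc, mul_comm (ε ^ 2)⁻¹, mul_assoc]
  refine mul_le_mul_of_nonneg_left ?_ (by positivity)
  rw [le_inv_mul_iff₀ (by positivity), mul_comm]
  exact h1

theorem ext_zero {ν : Measure T} [IsProbabilityMeasure ν]
    (h : ∀ m : ℤ, m ≠ 0 → ∫ x, fourier m x ∂ν = 0) : ν = volume := by
  have hcont : ∀ (κ : Measure T) [IsProbabilityMeasure κ],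
      Continuous (fun f : C(T, ℂ) => ∫ x, f x ∂κ) := by
    intro κ _
    have hL : LipschitzWith 1 (fun f : C(T, ℂ) => ∫ x, f x ∂κ) := by
      refine LipschitzWith.of_dist_le_mul fun f f' => ?_
      rw [NNReal.coe_one, one_mul, dist_eq_norm, dist_eq_norm,
        ← integral_sub (H847R3.XpXq.integrable_of_contC f.continuous κ)
          (H847R3.XpXq.integrable_of_contC f'.continuous κ)]
      have := norm_integral_le_of_norm_le_const (μ := κ) (C := ‖f - f'‖)
        (f := fun x => f x - f' x) (Eventually.of_forall fun x => (f - f').norm_coe_le_norm x)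
      simpa using this
    exact hL.continuous
  let S : Submodule ℂ C(T, ℂ) :=
    { carrier := {f | ∫ x, f x ∂ν = ∫ x, f x}
      add_mem' := by
        intro f f' hf hf'
        simp only [mem_ofPred_eq, ContinuousMap.add_apply] at *
        rw [integral_add (H847R3.XpXq.integrable_of_contC f.continuous ν)
          (H847R3.XpXq.integrable_of_contC f'.continuous ν),
          integral_add (H847R3.XpXq.integrable_of_contC f.continuous _)
          (H847R3.XpXq.integrable_of_contC f'.continuous _), hf, hf']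
      zero_mem' := by simp
      smul_mem' := by
        intro c f hf
        simp only [mem_ofPred_eq, ContinuousMap.smul_apply] at *
        rw [integral_smul, integral_smul, hf] }
  have hclosed : IsClosed (S : Set C(T, ℂ)) := isClosed_eq (hcont ν) (hcont volume)
  have hspan : Submodule.span ℂ (range (@fourier 1)) ≤ S := by
    rw [Submodule.span_le]
    rintro _ ⟨m, rfl⟩
    change ∫ x, fourier m x ∂ν = ∫ x, fourier m x
    rcases eq_or_ne m 0 with rfl | hm
    · simp
    · rw [h m hm, H847R3.XpXq.integral_fourier_zero hm]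
  have htop : ∀ f : C(T, ℂ), f ∈ S := by
    intro f
    have h1 : (Submodule.span ℂ (range (@fourier 1))).topologicalClosure ≤ S :=
      Submodule.topologicalClosure_minimal _ hspan hclosed
    rw [span_fourier_closure_eq_top] at h1
    exact h1 trivial
  refine ext_of_forall_integral_eq_of_IsFiniteMeasure fun f => ?_
  have h2 : ∫ x, ((f x : ℝ) : ℂ) ∂ν = ∫ x, ((f x : ℝ) : ℂ) :=
    htop ⟨fun x => ((f x : ℝ) : ℂ), Complex.continuous_ofReal.comp f.continuous⟩
  rw [integral_complex_ofReal, integral_complex_ofReal] at h2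
  exact_mod_cast h2

/-- a `× p`-invariant measure with a dilate equal to Lebesgue measure is Lebesgue measure -/
theorem eq_volume_of_dil {p : ℕ} (hp : 2 ≤ p) {μ : Measure T} [IsProbabilityMeasure μ]
    (hμp : MeasurePreserving (fun x : T => p • x) μ μ) {k : ℤ} (hk : k ≠ 0)
    (h : dil k μ = volume) : μ = volume := by
  obtain ⟨hmeas, hsing, hadd⟩ := Measure.haveLebesgueDecomposition_spec μ (volume : Measure T)
  have hle : μ.singularPart volume ≤ μ := Measure.singularPart_le _ _
  have h1 := H847R3.XpXq.sing_map hk hsing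
  have h2 : (μ.singularPart volume).map (fun x : T => k • x) ≪ (volume : Measure T) := by
    have := (Measure.map_mono hle (meas k)).absolutelyContinuous
    unfold dil at h
    rwa [h] at this
  have h3 : (μ.singularPart volume).map (fun x : T => k • x) = 0 := by
    have := h1.mono_ac Measure.AbsolutelyContinuous.rfl h2
    exact (Measure.MutuallySingular.self_iff _).1 this
  have h4 : μ.singularPart volume = 0 := by
    have : ((μ.singularPart volume).map (fun x : T => k • x)) univ = 0 := by rw [h3]; simp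
    rw [Measure.map_apply (meas k) MeasurableSet.univ, preimage_univ] at this
    exact Measure.measure_univ_eq_zero.1 this
  have h5 : μ ≪ (volume : Measure T) := by
    rw [hadd, h4, zero_add]
    exact withDensity_absolutelyContinuous _ _
  exact (AddCircle.ergodic_nsmul (T := (1 : ℝ)) (n := p) (by omega)).eq_of_absolutelyContinuous
    hμp h5

open Classical in
/-- few dilates of `μ` are equal to a given measure -/
theorem level {a : ℕ → ℤ} (ha : Spread a) {p : ℕ} (hp : 2 ≤ p) {μ : Measure T}
    [IsProbabilityMeasure μ] (h0 : ∀ x, μ {x} = 0)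
    (hμp : MeasurePreserving (fun x : T => p • x) μ μ) (hμ : μ ≠ volume) (ν : Measure T) :
    Tendsto (fun N : ℕ => (((Finset.range N).filter fun n =>
      a n ≠ 0 ∧ dil (a n) μ = ν).card : ℝ) / N) atTop (𝓝 0) := by
  by_cases hν : ∃ m : ℤ, m ≠ 0 ∧ ∫ x, fourier m x ∂ν ≠ 0
  · obtain ⟨m, hm, hmν⟩ := hν
    refine squeeze_zero (fun N => by positivity) (fun N => ?_)
      (few_large ha h0 hm (norm_pos_iff.2 hmν))
    refine div_le_div_of_nonneg_right ?_ (Nat.cast_nonneg _)
    exact_mod_cast Finset.card_le_card fun n hn => by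
      rw [Finset.mem_filter] at hn ⊢
      exact ⟨hn.1, by rw [hn.2.2]⟩
  · have hempty : ∀ N : ℕ, ((Finset.range N).filter fun n =>
        a n ≠ 0 ∧ dil (a n) μ = ν) = ∅ := by
      intro N
      refine Finset.filter_eq_empty_iff.2 fun n _ hn => hμ ?_
      have hprob : IsProbabilityMeasure (dil (a n) μ) :=
        Measure.isProbabilityMeasure_map (meas _).aemeasurable
      refine eq_volume_of_dil hp hμp hn.1 (ext_zero fun m hm => ?_)
      by_contra hne
      rw [hn.2] at hne
      exact hν ⟨m, hm, hne⟩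
    simp [hempty]

theorem rat_of_torsion {k : ℤ} (hk : k ≠ 0) {u : T} (hu : k • u = 0) :
    ∃ r : ℚ, u = ((r : ℝ) : T) := by
  obtain ⟨θ, rfl⟩ := QuotientAddGroup.mk_surjective u
  have h1 : ((k * θ : ℝ) : T) = 0 := by
    have : k • ((θ : ℝ) : T) = ((k • θ : ℝ) : T) := (AddCircle.coe_zsmul _).symm
    rw [zsmul_eq_mul] at this
    rw [← this]; exact hu
  rw [AddCircle.coe_eq_zero_iff] at h1
  obtain ⟨n, hn⟩ := h1
  refine ⟨(n : ℚ) / k, ?_⟩
  have hk' : (k : ℝ) ≠ 0 := by exact_mod_cast hk
  have : θ = (((n : ℚ) / k : ℚ) : ℝ) := by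
    push_cast
    rw [eq_div_iff hk']
    simp only [zsmul_eq_mul, mul_one] at hn
    linarith
  rw [← this]

/-- a counterexample to the ergodic form of the conjecture -/
structure Cex (p q : ℕ) (μ : Measure T) : Prop where
  prob : IsProbabilityMeasure μ
  atomless : ∀ x, μ {x} = 0
  invp : MeasurePreserving (fun x : T => p • x) μ μ
  invq : MeasurePreserving (fun x : T => q • x) μ μ
  erg : ∀ E : Set T, MeasurableSet E → (fun x : T => p • x) ⁻¹' E = E →
    (fun x : T => q • x) ⁻¹' E = E → μ E = 0 ∨ μ Eᶜ = 0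
  ne : μ ≠ volume

theorem inv_dil {s : ℕ} {μ : Measure T} (h : MeasurePreserving (fun x : T => s • x) μ μ) (k : ℤ) :
    MeasurePreserving (fun x : T => s • x) (dil k μ) (dil k μ) := by
  refine ⟨H847R3.XpXq.meas_smul s, ?_⟩
  unfold dil
  rw [Measure.map_map (H847R3.XpXq.meas_smul s) (meas k)]
  have : ((fun x : T => s • x) ∘ fun x : T => k • x) = (fun x : T => k • x) ∘ fun x : T => s • x := by
    funext x
    simp only [Function.comp]
    rw [smul_comm]
  rw [this, ← Measure.map_map (meas k) (H847R3.XpXq.meas_smul s), h.map_eq]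

theorem Cex.dil {p q : ℕ} (hp : 2 ≤ p) {μ : Measure T} (h : Cex p q μ) {k : ℤ} (hk : k ≠ 0) :
    Cex p q (dil k μ) := by
  have := h.prob
  refine ⟨Measure.isProbabilityMeasure_map (meas _).aemeasurable, fun x => ?_, inv_dil h.invp k,
    inv_dil h.invq k, fun E hE hpE hqE => ?_, fun he => h.ne (eq_volume_of_dil hp h.invp hk he)⟩
  · unfold Fur.dil
    rw [Measure.map_apply (meas k) (measurableSet_singleton x)]
    rcases Set.eq_empty_or_nonempty ((fun x : T => k • x) ⁻¹' {x}) with he | ⟨y0, hy0⟩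
    · rw [he]; simp
    · have hsub : (fun x : T => k • x) ⁻¹' {x} ⊆ {y : T | ∃ r : ℚ, y0 - y = ((r : ℝ) : T)} := by
        intro y hy
        refine rat_of_torsion hk ?_
        simp only [mem_preimage, mem_singleton_iff] at hy hy0
        rw [smul_sub, hy, hy0, sub_self]
      have : NullSingletonClass μ := ⟨h.atomless⟩
      exact measure_mono_null hsub ((countable_rat y0).measure_zero μ)
  · unfold Fur.dil
    rw [Measure.map_apply (meas k) hE, Measure.map_apply (meas k) hE.compl]
    have hcomm : ∀ s : ℕ, (fun x : T => s • x) ⁻¹' E = E →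
        (fun x : T => s • x) ⁻¹' ((fun x : T => k • x) ⁻¹' E) = (fun x : T => k • x) ⁻¹' E := by
      intro s hs
      ext x
      simp only [mem_preimage]
      rw [smul_comm]
      change k • x ∈ (fun x : T => s • x) ⁻¹' E ↔ _
      rw [hs]
    exact h.erg _ ((meas k) hE) (hcomm p hpE) (hcomm q hqE)

theorem spread_natCast : Spread (fun n : ℕ => (n : ℤ)) := by
  intro θ hθ
  set w : ℂ := ((AddCircle.toCircle (θ : T) : Circle) : ℂ) with hw
  have hw1 : w ≠ 1 := by
    intro h1
    have h2 : AddCircle.toCircle (θ : T) = 1 := by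
      apply Circle.ext
      rw [Circle.coe_one, ← hw]
      exact h1
    have h3 : (θ : T) = 0 :=
      AddCircle.injective_toCircle one_ne_zero (by rw [h2, AddCircle.toCircle_zero])
    rw [AddCircle.coe_eq_zero_iff] at h3
    obtain ⟨n, hn⟩ := h3
    exact hθ ⟨n, by simpa using hn⟩
  have hsum : ∀ N : ℕ, ∑ n ∈ Finset.range N, (fourier ((n : ℕ) : ℤ) (θ : T) : ℂ) =
      (w ^ N - 1) / (w - 1) := by
    intro N
    rw [← geom_sum_eq hw1]
    refine Finset.sum_congr rfl fun n _ => ?_
    rw [fourier_apply, natCast_zsmul, AddCircle.toCircle_nsmul]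
    simp [hw]
  have hb : Tendsto (fun N : ℕ => (N : ℝ)⁻¹ * (2 / ‖w - 1‖)) atTop (𝓝 0) := by
    have := (tendsto_inv_atTop_zero.comp tendsto_natCast_atTop_atTop).mul_const (2 / ‖w - 1‖)
    simpa using this
  refine squeeze_zero_norm (fun N => ?_) hb
  rw [hsum N, norm_mul, norm_inv, Complex.norm_natCast, norm_div]
  refine mul_le_mul_of_nonneg_left ?_ (by positivity)
  refine div_le_div_of_nonneg_right ?_ (norm_nonneg _)
  calc ‖w ^ N - 1‖ ≤ ‖w ^ N‖ + ‖(1 : ℂ)‖ := norm_sub_le _ _
    _ = 2 := by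
      rw [norm_pow, hw, Circle.norm_coe]; norm_num

open Classical in
/-- if there is a counterexample, there are infinitely many in every neighbourhood of Lebesgue
measure -/
theorem infinite_near {p q : ℕ} (hp : 2 ≤ p) (M : ℤ) {ε : ℝ} (hε : 0 < ε)
    (h : ∃ μ, Cex p q μ) :
    {μ : Measure T | Cex p q μ ∧ ∀ m : ℤ, m ≠ 0 → |m| ≤ M →
      ‖∫ x, fourier m x ∂μ‖ < ε}.Infinite := by
  obtain ⟨μ, hμ⟩ := h
  have := hμ.prob
  intro hfin
  set F := hfin.toFinset with hF
  set a : ℕ → ℤ := fun n => (n : ℤ) with ha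
  have hsp : Spread a := spread_natCast
  -- the bad sets
  have h1 : Tendsto (fun N : ℕ => ∑ m ∈ (Finset.Icc (-M) M).filter (fun m => m ≠ 0),
      (((Finset.range N).filter fun n =>
        ε ≤ ‖∫ x, fourier m x ∂(dil (a n) μ)‖).card : ℝ) / N) atTop (𝓝 0) := by
    have := tendsto_finsetSum ((Finset.Icc (-M) M).filter (fun m => m ≠ 0))
      (f := fun (m : ℤ) (N : ℕ) => (((Finset.range N).filter fun n =>
        ε ≤ ‖∫ x, fourier m x ∂(dil (a n) μ)‖).card : ℝ) / N) (a := fun _ => (0 : ℝ))
      (x := atTop) fun m hm => few_large hsp hμ.atomless (Finset.mem_filter.1 hm).2 hε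
    simpa using this
  have h2 : Tendsto (fun N : ℕ => ∑ ν ∈ F, (((Finset.range N).filter fun n =>
      a n ≠ 0 ∧ dil (a n) μ = ν).card : ℝ) / N) atTop (𝓝 0) := by
    have := tendsto_finsetSum F
      (f := fun (ν : Measure T) (N : ℕ) => (((Finset.range N).filter fun n =>
      a n ≠ 0 ∧ dil (a n) μ = ν).card : ℝ) / N) (a := fun _ => (0 : ℝ))
      (x := atTop) fun ν _ => level hsp hp hμ.atomless hμ.invp hμ.ne ν
    simpa using this
  have h3 : Tendsto (fun N : ℕ => (1 : ℝ) / N) atTop (𝓝 0) :=
    tendsto_const_div_atTop_nhds_zero_nat 1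
  have hsum := (h1.add h2).add h3
  simp only [add_zero] at hsum
  have hev := hsum.eventually (gt_mem_nhds (show (0 : ℝ) < 1 by norm_num))
  obtain ⟨N, hN, hN1⟩ := (hev.and (eventually_ge_atTop 1)).exists
  have hNpos : (0 : ℝ) < N := by exact_mod_cast hN1
  have hcover : Finset.range N ⊆ (((Finset.Icc (-M) M).filter (fun m => m ≠ 0)).biUnion fun m =>
      (Finset.range N).filter fun n => ε ≤ ‖∫ x, fourier m x ∂(dil (a n) μ)‖) ∪
      (F.biUnion fun ν => (Finset.range N).filter fun n => a n ≠ 0 ∧ dil (a n) μ = ν) ∪ {0} := by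
    intro n hn
    simp only [Finset.mem_union, Finset.mem_biUnion, Finset.mem_filter, Finset.mem_singleton,
      Finset.mem_Icc]
    by_cases hn0 : n = 0
    · right; exact hn0
    left
    have han : a n ≠ 0 := by simp [ha, hn0]
    by_cases hbig : ∃ m : ℤ, m ≠ 0 ∧ |m| ≤ M ∧ ε ≤ ‖∫ x, fourier m x ∂(dil (a n) μ)‖
    · obtain ⟨m, hm0, hmM, hm⟩ := hbig
      left
      exact ⟨m, ⟨⟨(abs_le.1 hmM).1, (abs_le.1 hmM).2⟩, hm0⟩, hn, hm⟩
    · right
      refine ⟨dil (a n) μ, ?_, hn, han, rfl⟩
      rw [hF, Set.Finite.mem_toFinset]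
      refine ⟨hμ.dil hp han, fun m hm hmM => ?_⟩
      by_contra hcon
      exact hbig ⟨m, hm, hmM, not_lt.1 hcon⟩
  have hcard : (N : ℝ) ≤ ∑ m ∈ (Finset.Icc (-M) M).filter (fun m => m ≠ 0),
      (((Finset.range N).filter fun n => ε ≤ ‖∫ x, fourier m x ∂(dil (a n) μ)‖).card : ℝ) +
      ∑ ν ∈ F, (((Finset.range N).filter fun n => a n ≠ 0 ∧ dil (a n) μ = ν).card : ℝ) + 1 := by
    have h4 := Finset.card_le_card hcover
    rw [Finset.card_range] at h4
    have h5 := h4.trans ((Finset.card_union_le _ _).trans (add_le_add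
      ((Finset.card_union_le _ _).trans (add_le_add Finset.card_biUnion_le
        Finset.card_biUnion_le)) (Finset.card_singleton 0).le))
    exact_mod_cast h5
  rw [← Finset.sum_div, ← Finset.sum_div, ← add_div, ← add_div, div_lt_one hNpos] at hN
  linarith

end Pool.Agent.H793R3.Fur
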