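import Mathlib

/-! A common fixed vector of two isometries of a Hilbert space. -/

set_option autoImplicit false

namespace Pool.Agent.H793R3.Fur

theorem hilb {H : Type*} [NormedAddCommGroup H] [InnerProductSpace ℂ H] [CompleteSpace H]
    (U W : H →ₗᵢ[ℂ] H) (h : ℕ → ℕ → H) (hU : ∀ i j, U (h i j) = h (i + 1) j)
    (hW : ∀ i j, W (h i j) = h i (j + 1)) :
    ∃ u : H, U u = u ∧ W u = u ∧ ∀ φ : H →L[ℂ] ℂ, (∀ i j, φ (h i j) = φ (h 0 0)) →
      φ u = φ (h 0 0) := by
  set S : Set H := {x | ∃ i j, x = h i j - h (i + 1) j ∨ x = h i j - h i (j + 1)} with hS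
  set V : Submodule ℂ H := (Submodule.span ℂ S).topologicalClosure with hV
  have hVc : IsClosed (V : Set H) := Submodule.isClosed_topologicalClosure _
  have : CompleteSpace V := hVc.completeSpace_coe
  have hSV : S ⊆ V := fun x hx =>
    (Submodule.le_topologicalClosure _) (Submodule.subset_span hx)
  have hmap : ∀ A : H →ₗᵢ[ℂ] H, (∀ x ∈ S, A x ∈ S) → ∀ x ∈ V, A x ∈ V := by
    intro A hA
    have h1 : V ≤ V.comap A.toLinearMap := by
      refine Submodule.topologicalClosure_minimal _ ?_ ?_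
      · rw [Submodule.span_le]
        intro x hx
        exact hSV (hA x hx)
      · exact hVc.preimage A.continuous
    exact fun x hx => h1 hx
  have hUV := hmap U (by
    rintro x ⟨i, j, rfl | rfl⟩
    · exact ⟨i + 1, j, Or.inl (by rw [map_sub, hU, hU])⟩
    · exact ⟨i + 1, j, Or.inr (by rw [map_sub, hU, hU])⟩)
  have hWV := hmap W (by
    rintro x ⟨i, j, rfl | rfl⟩
    · exact ⟨i, j + 1, Or.inl (by rw [map_sub, hW, hW])⟩
    · exact ⟨i, j + 1, Or.inr (by rw [map_sub, hW, hW])⟩)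
  obtain ⟨v, hv, u, hu, huv⟩ := Submodule.exists_add_mem_mem_orthogonal (K := V) (h 0 0)
  have hfix : ∀ A : H →ₗᵢ[ℂ] H, (∀ x ∈ V, A x ∈ V) → h 0 0 - A (h 0 0) ∈ V → A u = u := by
    intro A hA hA0
    have hd : A u - u ∈ V := by
      have e : A u - u = v - A v - (h 0 0 - A (h 0 0)) := by
        have : u = h 0 0 - v := by rw [huv]; abel
        rw [this, map_sub]; abel
      rw [e]
      exact V.sub_mem (V.sub_mem hv (hA v hv)) hA0
    have horth : inner ℂ u (A u - u) = 0 :=
      (Submodule.mem_orthogonal' V u).1 hu _ hd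
    have hn := norm_add_sq_eq_norm_sq_add_norm_sq_of_inner_eq_zero u (A u - u) horth
    rw [add_sub_cancel, A.norm_map] at hn
    have : ‖A u - u‖ = 0 := by nlinarith [norm_nonneg (A u - u)]
    exact sub_eq_zero.1 (norm_eq_zero.1 this)
  refine ⟨u, hfix U hUV ?_, hfix W hWV ?_, fun φ hφ => ?_⟩
  · rw [hU]; exact hSV ⟨0, 0, Or.inl rfl⟩
  · rw [hW]; exact hSV ⟨0, 0, Or.inr rfl⟩
  · have h1 : V ≤ LinearMap.ker φ.toLinearMap := by
      refine Submodule.topologicalClosure_minimal _ ?_ ?_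
      · rw [Submodule.span_le]
        rintro x ⟨i, j, rfl | rfl⟩
        · change φ (h i j - h (i + 1) j) = 0
          rw [map_sub, hφ, hφ (i + 1), sub_self]
        · change φ (h i j - h i (j + 1)) = 0
          rw [map_sub, hφ, hφ i (j + 1), sub_self]
      · exact φ.isClosed_ker
    have h2 : φ v = 0 := h1 hv
    rw [huv, map_add, h2, zero_add]

end Pool.Agent.H793R3.Fur
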