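import Pool.Agent.H793R3.Fur.B
import Pool.Agent.H793R3.Fur.H

/-! Ergodicity of the joint action and Fourier coefficients along `l + k p^i q^j`. -/

set_option autoImplicit false

open MeasureTheory Filter Topology Set

namespace Pool.Agent.H793R3.Fur

/-- an ergodic counterexample to Furstenberg's conjecture (ergodicity in the almost sure form) -/
structure ECex (p q : ℕ) (μ : Measure T) : Prop where
  prob : IsProbabilityMeasure μ
  atomless : ∀ x, μ {x} = 0
  invp : MeasurePreserving (fun x : T => p • x) μ μ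
  invq : MeasurePreserving (fun x : T => q • x) μ μ
  erg : ∀ E : Set T, MeasurableSet E → (fun x : T => p • x) ⁻¹' E =ᵐ[μ] E →
    (fun x : T => q • x) ⁻¹' E =ᵐ[μ] E → μ E = 0 ∨ μ Eᶜ = 0
  ne : μ ≠ volume

theorem fourier_eq_one {k : ℤ} (hk : k ≠ 0) {x : T} (h : (fourier k x : ℂ) = 1) :
    ∃ r : ℚ, x = ((r : ℝ) : T) := by
  refine rat_of_torsion hk ?_
  rw [fourier_apply] at h
  have h2 : AddCircle.toCircle (k • x) = 1 := by
    apply Circle.ext
    rw [Circle.coe_one]
    exact h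
  exact AddCircle.injective_toCircle one_ne_zero (by rw [h2, AddCircle.toCircle_zero])

theorem ae_one_of_integral {μ : Measure T} [IsProbabilityMeasure μ] {g : T → ℂ}
    (hg : Integrable g μ) (hn : ∀ x, ‖g x‖ = 1) (h : ∫ x, g x ∂μ = 1) : ∀ᵐ x ∂μ, g x = 1 := by
  have hre : ∫ x, (1 - (g x).re) ∂μ = 0 := by
    have hreint : Integrable (fun x => (g x).re) μ := hg.re
    rw [integral_sub (integrable_const _) hreint]
    have : ∫ x, (g x).re ∂μ = (∫ x, g x ∂μ).re := by
      have := integral_re hg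
      simpa using this
    rw [this, h]; simp
  have hnn : 0 ≤ᵐ[μ] fun x => 1 - (g x).re := Eventually.of_forall fun x => by
    have := Complex.re_le_norm (g x)
    rw [hn x] at this
    simp only [Pi.zero_apply]; linarith
  have h1 := (integral_eq_zero_iff_of_nonneg_ae hnn ((integrable_const _).sub hg.re)).1 hre
  filter_upwards [h1] with x hx
  have hx1 : (g x).re = 1 := by
    simp only [Pi.zero_apply] at hx; linarith
  have hx2 : (g x).im = 0 := by
    have h3 := Complex.sq_norm (g x)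
    rw [hn x, Complex.normSq_apply, hx1] at h3
    nlinarith
  exact Complex.ext (by simpa using hx1) (by simpa using hx2)

theorem coeff_ne_one {μ : Measure T} [IsProbabilityMeasure μ] (h0 : ∀ x, μ {x} = 0) {k : ℤ}
    (hk : k ≠ 0) : ∫ x, fourier k x ∂μ ≠ 1 := by
  intro h
  have hae := ae_one_of_integral (H847R3.XpXq.integrable_of_contC (fourier k).continuous μ)
    (norm_fourier_eq k) h
  have hnull : NullSingletonClass μ := ⟨h0⟩
  have hc : (range fun r : ℚ => ((r : ℝ) : T)).Countable := countable_range _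
  have h1 : μ (range fun r : ℚ => ((r : ℝ) : T)) = 0 := hc.measure_zero μ
  have h2 : ∀ᵐ x ∂μ, x ∉ (range fun r : ℚ => ((r : ℝ) : T)) := measure_eq_zero_iff_ae_notMem.1 h1
  obtain ⟨x, hx1, hx2⟩ := (hae.and h2).exists
  obtain ⟨r, hr⟩ := fourier_eq_one hk hx1
  exact hx2 ⟨r, hr.symm⟩

/-- the mean size of `k x` -/
noncomputable def rig (μ : Measure T) (k : ℤ) : ℝ := ∫ x, ‖k • x‖ ∂μ

theorem rig_mul {μ : Measure T} {s : ℕ} (hs : MeasurePreserving (fun x : T => s • x) μ μ)
    (k : ℤ) : rig μ (k * s) = rig μ k := by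
  unfold rig
  have h1 : ∫ x, ‖k • x‖ ∂μ = ∫ x, ‖k • (s • x)‖ ∂μ := by
    conv_lhs => rw [← hs.map_eq]
    rw [integral_map hs.measurable.aemeasurable]
    exact (continuous_norm.comp (continuous_zsmul k)).aestronglyMeasurable
  rw [h1]
  congr 1
  funext x
  rw [mul_smul, natCast_zsmul]

section L2

variable (μ : Measure T) [IsProbabilityMeasure μ]

theorem memLp_fourier (n : ℤ) : MemLp (fun x : T => (fourier n x : ℂ)) 2 μ :=
  MemLp.of_bound (fourier n).continuous.aestronglyMeasurable 1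
    (Eventually.of_forall fun x => (norm_fourier_eq n x).le)

noncomputable def E (n : ℤ) : Lp ℂ 2 μ := (memLp_fourier μ n).toLp _

theorem phi (n : ℤ) (f : Lp ℂ 2 μ) :
    innerSL ℂ (E μ (-n)) f = ∫ x, fourier n x * f x ∂μ := by
  rw [innerSL_apply_apply, L2.inner_def]
  refine integral_congr_ae ?_
  filter_upwards [(memLp_fourier μ (-n)).coeFn_toLp] with x hx
  unfold E
  rw [hx, RCLike.inner_apply, fourier_neg]
  simp [mul_comm]

theorem phi_E (n k : ℤ) : innerSL ℂ (E μ (-n)) (E μ k) = ∫ x, fourier (n + k) x ∂μ := by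
  rw [phi]
  refine integral_congr_ae ?_
  filter_upwards [(memLp_fourier μ k).coeFn_toLp] with x hx
  unfold E
  rw [hx, fourier_add]

end L2

theorem coeff_mul {μ : Measure T} {s : ℕ} (hs : MeasurePreserving (fun x : T => s • x) μ μ)
    (k : ℤ) : ∫ x, fourier (k * s) x ∂μ = ∫ x, fourier k x ∂μ := by
  conv_rhs => rw [← hs.map_eq]
  rw [integral_map hs.measurable.aemeasurable (fourier k).continuous.aestronglyMeasurable]
  congr 1
  funext x
  rw [fourier_apply, fourier_apply, mul_smul, natCast_zsmul]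

/-- functions invariant under both maps are constant -/
theorem ECex.const {p q : ℕ} {μ : Measure T} (h : ECex p q μ) {f : T → ℂ} (hf : Measurable f)
    (hp : (fun x => f (p • x)) =ᵐ[μ] f) (hq : (fun x => f (q • x)) =ᵐ[μ] f) :
    ∃ c : ℂ, f =ᵐ[μ] fun _ => c := by
  have key : ∀ U : Set ℂ, MeasurableSet U → (∀ᵐ x ∂μ, f x ∈ U) ∨ (∀ᵐ x ∂μ, f x ∉ U) := by
    intro U hU
    have hinv : ∀ s : ℕ, (fun x => f (s • x)) =ᵐ[μ] f →
        (fun x : T => s • x) ⁻¹' (f ⁻¹' U) =ᵐ[μ] (f ⁻¹' U) := by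
      intro s hs
      filter_upwards [hs] with x hx
      change (f (s • x) ∈ U) = (f x ∈ U)
      rw [hx]
    rcases h.erg (f ⁻¹' U) (hf hU) (hinv p hp) (hinv q hq) with h1 | h1
    · right; exact measure_eq_zero_iff_ae_notMem.1 h1
    · left
      have := measure_eq_zero_iff_ae_notMem.1 h1
      filter_upwards [this] with x hx
      by_contra hcon
      exact hx hcon
  obtain ⟨c, hc⟩ := exists_eventuallyEq_const_of_forall_separating (l := ae μ) (f := f)
    MeasurableSet key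
  exact ⟨c, hc⟩

theorem ECex.mean {p q : ℕ} {μ : Measure T} (h : ECex p q μ) (a k : ℤ)
    (hc : ∫ x, fourier a x ∂μ ≠ 0)
    (heq : ∀ i j : ℕ, ∫ x, fourier (a + k * (p ^ i * q ^ j : ℕ)) x ∂μ = ∫ x, fourier a x ∂μ) :
    ∫ x, fourier k x ∂μ = 1 := by
  have := h.prob
  set U : Lp ℂ 2 μ →ₗᵢ[ℂ] Lp ℂ 2 μ := Lp.compMeasurePreservingₗᵢ ℂ _ h.invp with hU
  set W : Lp ℂ 2 μ →ₗᵢ[ℂ] Lp ℂ 2 μ := Lp.compMeasurePreservingₗᵢ ℂ _ h.invq with hW
  have hcomp : ∀ (s : ℕ) (hs : MeasurePreserving (fun x : T => s • x) μ μ) (n : ℤ),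
      Lp.compMeasurePreservingₗᵢ ℂ _ hs (E μ n) = E μ (n * s) := by
    intro s hs n
    apply Lp.ext
    have h1 := Lp.coeFn_compMeasurePreserving (E μ n) hs
    have h2 := (memLp_fourier μ (n * s)).coeFn_toLp
    have h3 := hs.quasiMeasurePreserving.ae_eq_comp (memLp_fourier μ n).coeFn_toLp
    refine h1.trans ?_
    unfold E
    refine h3.trans (EventuallyEq.trans ?_ h2.symm)
    refine Eventually.of_forall fun x => ?_
    simp only [Function.comp]
    rw [fourier_apply, fourier_apply, mul_smul, natCast_zsmul]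
  obtain ⟨u, hu1, hu2, hu3⟩ := hilb U W (fun i j => E μ (k * (p ^ i * q ^ j : ℕ)))
    (fun i j => by
      rw [hU, hcomp]
      congr 1
      push_cast
      ring)
    (fun i j => by
      rw [hW, hcomp]
      congr 1
      push_cast
      ring)
  have hum : Measurable (u : T → ℂ) := (Lp.stronglyMeasurable u).measurable
  have hinv : ∀ (s : ℕ) (hs : MeasurePreserving (fun x : T => s • x) μ μ),
      Lp.compMeasurePreservingₗᵢ ℂ _ hs u = u → (fun x => u (s • x)) =ᵐ[μ] u := by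
    intro s hs he
    have h1 := Lp.coeFn_compMeasurePreserving u hs
    have h2 : (Lp.compMeasurePreserving _ hs u : Lp ℂ 2 μ) = u := he
    rw [h2] at h1
    exact h1.symm
  obtain ⟨c, hcu⟩ := h.const hum (hinv p h.invp hu1) (hinv q h.invq hu2)
  have hval : ∀ n : ℤ, innerSL ℂ (E μ (-n)) u = c * ∫ x, fourier n x ∂μ := by
    intro n
    rw [phi, ← integral_const_mul]
    refine integral_congr_ae ?_
    filter_upwards [hcu] with x hx
    rw [hx, mul_comm]
  have hk0 : k * ((p ^ 0 * q ^ 0 : ℕ) : ℤ) = k := by simp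
  have h0 := hu3 (innerSL ℂ (E μ (-0))) (fun i j => by
    rw [phi_E, phi_E, zero_add, zero_add, hk0]
    exact coeff_mul (H847R3.XpXq.mp_S h.invp h.invq i j) k)
  rw [hval, phi_E, hk0, zero_add] at h0
  have h1 := hu3 (innerSL ℂ (E μ (-a))) (fun i j => by
    rw [phi_E, phi_E, heq, heq])
  rw [hval, phi_E, heq] at h1
  have h2 : c = 1 := by
    have := mul_right_cancel₀ hc (h1.trans (one_mul _).symm)
    exact this
  rw [h2] at h0
  simpa using h0.symm

/-- **Key lemma.** -/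
theorem ECex.key {p q : ℕ} (hp : 2 ≤ p) (hq : 1 ≤ q) {μ : Measure T} (h : ECex p q μ)
    (hr : ∀ δ : ℝ, 0 < δ → ∃ k : ℤ, k ≠ 0 ∧ rig μ k < δ) (l : ℤ) {δ : ℝ} (hδ : 0 < δ) :
    ∃ k : ℤ, k ≠ 0 ∧ rig μ k < δ ∧
      ∃ m : ℤ, ∫ x, fourier (m * (l + k)) x ∂μ ≠ ∫ x, fourier (m * l) x ∂μ := by
  have := h.prob
  obtain ⟨k0, hk0, hk0δ⟩ := hr δ hδ
  rcases eq_or_ne l 0 with rfl | hl
  · refine ⟨k0, hk0, hk0δ, 1, ?_⟩
    simp only [zero_add, one_mul, mul_zero]
    have h2 : ∫ x : T, (fourier 0 x : ℂ) ∂μ = 1 := by simp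
    rw [h2]
    exact coeff_ne_one h.atomless hk0
  · have hm : ∃ m : ℤ, m ≠ 0 ∧ ∫ x, fourier m x ∂(dil l μ) ≠ 0 := by
      by_contra hcon
      push Not at hcon
      have hprob : IsProbabilityMeasure (dil l μ) :=
        Measure.isProbabilityMeasure_map (meas _).aemeasurable
      exact h.ne (eq_volume_of_dil hp h.invp hl (ext_zero hcon))
    obtain ⟨m, hm0, hm⟩ := hm
    rw [coeff_dil] at hm
    have hex : ∃ i j : ℕ, ∫ x, fourier (m * l + m * k0 * (p ^ i * q ^ j : ℕ)) x ∂μ ≠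
        ∫ x, fourier (m * l) x ∂μ := by
      by_contra hcon
      push Not at hcon
      exact coeff_ne_one h.atomless (mul_ne_zero hm0 hk0) (h.mean (m * l) (m * k0) hm hcon)
    obtain ⟨i, j, hij⟩ := hex
    refine ⟨k0 * (p ^ i * q ^ j : ℕ), ?_, ?_, m, ?_⟩
    · have : (p ^ i * q ^ j : ℕ) ≠ 0 := by positivity
      exact mul_ne_zero hk0 (by exact_mod_cast this)
    · rw [rig_mul (H847R3.XpXq.mp_S h.invp h.invq i j)]; exact hk0δ
    · rw [mul_add, ← mul_assoc]; exact hij

end Pool.Agent.H793R3.Fur
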