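import Pool.Agent.H793R3.Fur.C

/-! A Cantor family of invariant measures attached to a rigid ergodic counterexample. -/

set_option autoImplicit false

open MeasureTheory Filter Topology Set

namespace Pool.Agent.H793R3.Fur

/-- an enumeration of the finite sets of naturals, with infinite repetitions -/
noncomputable def fs (n : ℕ) : Finset ℕ := (Encodable.decode (α := Finset ℕ) n.unpair.1).getD ∅

theorem fs_pair (A : Finset ℕ) (j : ℕ) : fs (Nat.pair (Encodable.encode A) j) = A := by
  simp [fs]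

/-- recursive choice -/
noncomputable def sq (ch : ℤ → ℕ → ℤ) : ℕ → ℤ
  | n => ch (1 + ∑ i ∈ ((fs n).filter (· < n)).attach, sq ch i.1) n
  decreasing_by exact (Finset.mem_filter.1 i.2).2

theorem sq_eq (ch : ℤ → ℕ → ℤ) (n : ℕ) :
    sq ch n = ch (1 + ∑ i ∈ (fs n).filter (· < n), sq ch i) n := by
  rw [sq, Finset.sum_attach ((fs n).filter (· < n)) (fun i => sq ch i)]

theorem rig_nonneg (μ : Measure T) (k : ℤ) : 0 ≤ rig μ k :=
  integral_nonneg fun _ => norm_nonneg _

theorem exists_seq {p q : ℕ} (hp : 2 ≤ p) (hq : 1 ≤ q) {μ : Measure T} (h : ECex p q μ)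
    (hr : ∀ δ : ℝ, 0 < δ → ∃ k : ℤ, k ≠ 0 ∧ rig μ k < δ) :
    ∃ κ : ℕ → ℤ, (∀ n, κ n ≠ 0) ∧ Summable (fun n => rig μ (κ n)) ∧
      ∀ (A : Finset ℕ) (I : ℕ), ∃ n, I ≤ n ∧ n ∉ A ∧ ∃ m : ℤ,
        ∫ x, fourier (m * (1 + ∑ i ∈ A, κ i + κ n)) x ∂μ ≠
          ∫ x, fourier (m * (1 + ∑ i ∈ A, κ i)) x ∂μ := by
  have hch : ∀ (l : ℤ) (n : ℕ), ∃ k : ℤ, k ≠ 0 ∧ rig μ k < (1 / 2) ^ n ∧
      ∃ m : ℤ, ∫ x, fourier (m * (l + k)) x ∂μ ≠ ∫ x, fourier (m * l) x ∂μ :=
    fun l n => h.key hp hq hr l (by positivity)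
  choose ch hch0 hch1 hch2 using hch
  refine ⟨sq ch, fun n => ?_, ?_, fun A I => ?_⟩
  · rw [sq_eq]; exact hch0 _ _
  · refine Summable.of_nonneg_of_le (fun n => rig_nonneg _ _) (fun n => ?_)
      summable_geometric_two
    rw [sq_eq]; exact (hch1 _ _).le
  · set j := max I (A.sup id + 1) with hj
    set n := Nat.pair (Encodable.encode A) j with hn
    have hjn : j ≤ n := Nat.right_le_pair _ _
    have hlt : ∀ i ∈ A, i < n := by
      intro i hi
      have h1 : i ≤ A.sup id := Finset.le_sup (f := id) hi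
      have h2 : A.sup id + 1 ≤ j := le_max_right _ _
      omega
    have hfs : (fs n).filter (· < n) = A := by
      rw [hn, fs_pair, ← hn]
      exact Finset.filter_true_of_mem hlt
    refine ⟨n, (le_max_left _ _).trans hjn, fun hmem => lt_irrefl _ (hlt n hmem), ?_⟩
    have h3 := hch2 (1 + ∑ i ∈ A, sq ch i) n
    have h4 : sq ch n = ch (1 + ∑ i ∈ A, sq ch i) n := by
      conv_lhs => rw [sq_eq, hfs]
    rw [h4]
    exact h3

section Cantor

variable (κ : ℕ → ℤ)

noncomputable def term (ε : ℕ → Bool) (n : ℕ) (x : T) : T := if ε n then κ n • x else 0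

noncomputable def F (ε : ℕ → Bool) (x : T) : T := x + ∑' n, term κ ε n x

theorem norm_term_le (ε : ℕ → Bool) (n : ℕ) (x : T) : ‖term κ ε n x‖ ≤ ‖κ n • x‖ := by
  unfold term
  split_ifs
  · exact le_rfl
  · simp

theorem term_smul (ε : ℕ → Bool) (n : ℕ) (s : ℕ) (x : T) :
    term κ ε n (s • x) = s • term κ ε n x := by
  unfold term
  split_ifs
  · rw [smul_comm]
  · simp

variable {κ}

theorem ae_summable {μ : Measure T} [IsProbabilityMeasure μ]
    (hκ : Summable (fun n => rig μ (κ n))) : ∀ᵐ x ∂μ, Summable (fun n => ‖κ n • x‖) := by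
  have hmeas : ∀ n, Measurable fun x : T => ENNReal.ofReal ‖κ n • x‖ := fun n =>
    ((continuous_norm.comp (continuous_zsmul (κ n))).measurable).ennreal_ofReal
  have h1 : ∫⁻ x, ∑' n, ENNReal.ofReal ‖κ n • x‖ ∂μ ≠ ⊤ := by
    rw [lintegral_tsum fun n => (hmeas n).aemeasurable]
    have h2 : ∀ n, ∫⁻ x, ENNReal.ofReal ‖κ n • x‖ ∂μ = ENNReal.ofReal (rig μ (κ n)) := by
      intro n
      unfold rig
      rw [ofReal_integral_eq_lintegral_ofReal]
      · exact H847R3.XpXq.integrable_of_cont (continuous_norm.comp (continuous_zsmul (κ n))) μ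
      · exact Eventually.of_forall fun x => norm_nonneg _
    simp_rw [h2]
    rw [← ENNReal.ofReal_tsum_of_nonneg (fun n => rig_nonneg _ _) hκ]
    exact ENNReal.ofReal_ne_top
  have h3 := ae_lt_top (Measurable.tsum hmeas) h1
  filter_upwards [h3] with x hx
  have h4 := ENNReal.summable_toReal hx.ne
  refine h4.congr fun n => ?_
  rw [ENNReal.toReal_ofReal (norm_nonneg _)]

instance : CompleteSpace T := complete_of_compact

theorem summable_term {x : T} (hx : Summable (fun n => ‖κ n • x‖)) (ε : ℕ → Bool) :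
    Summable (fun n => term κ ε n x) :=
  Summable.of_norm_bounded hx fun n => norm_term_le κ ε n x

theorem F_smul {x : T} (hx : Summable (fun n => ‖κ n • x‖)) (ε : ℕ → Bool) (s : ℕ) :
    F κ ε (s • x) = s • F κ ε x := by
  unfold F
  rw [smul_add]
  congr 1
  simp_rw [term_smul]
  have h := (summable_term hx ε).map_tsum (nsmulAddMonoidHom (α := T) s) (continuous_const_smul s)
  exact h.symm

theorem F_aemeasurable {μ : Measure T} [IsProbabilityMeasure μ]
    (hκ : Summable (fun n => rig μ (κ n))) (ε : ℕ → Bool) : AEMeasurable (F κ ε) μ := by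
  have hpart : ∀ N : ℕ, Measurable fun x : T => x + ∑ n ∈ Finset.range N, term κ ε n x := by
    intro N
    refine (continuous_id.add (continuous_finsetSum _ fun n _ => ?_)).measurable
    unfold term
    split_ifs
    · exact continuous_zsmul _
    · exact continuous_const
  refine aemeasurable_of_tendsto_metrizable_ae atTop (fun N => (hpart N).aemeasurable) ?_
  filter_upwards [ae_summable hκ] with x hx
  exact tendsto_const_nhds.add (summable_term hx ε).hasSum.tendsto_sum_nat

theorem cont_coeff {μ : Measure T} [IsProbabilityMeasure μ]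
    (hκ : Summable (fun n => rig μ (κ n))) (m : ℤ) :
    Continuous fun ε : ℕ → Bool => ∫ x, (fourier m (F κ ε x) : ℂ) ∂μ := by
  refine continuous_of_dominated (bound := fun _ => (1 : ℝ)) (fun ε => ?_) (fun ε => ?_)
    (integrable_const _) ?_
  · exact ((fourier m).continuous.measurable.comp_aemeasurable
      (F_aemeasurable hκ ε)).aestronglyMeasurable
  · exact Eventually.of_forall fun x => (norm_fourier_eq m _).le
  · filter_upwards [ae_summable hκ] with x hx
    refine (fourier m).continuous.comp ?_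
    unfold F
    refine continuous_const.add (continuous_tsum (u := fun n => ‖κ n • x‖) (fun n => ?_) hx
      fun n ε => norm_term_le κ ε n x)
    unfold term
    exact (continuous_of_discreteTopology (f := fun b : Bool => if b then κ n • x else 0)).comp
      (continuous_apply n)

/-- the indicator function of a finite set -/
def ind (A : Finset ℕ) (n : ℕ) : Bool := decide (n ∈ A)

theorem F_ind (A : Finset ℕ) (x : T) : F κ (ind A) x = (1 + ∑ i ∈ A, κ i) • x := by
  unfold F
  rw [tsum_eq_sum (s := A) (fun n hn => by simp [term, ind, hn])]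
  rw [add_smul, one_smul, Finset.sum_smul]
  congr 1
  refine Finset.sum_congr rfl fun n hn => ?_
  simp [term, ind, hn]

theorem coeff_ind {μ : Measure T} (A : Finset ℕ) (m : ℤ) :
    ∫ x, (fourier m (F κ (ind A) x) : ℂ) ∂μ = ∫ x, fourier (m * (1 + ∑ i ∈ A, κ i)) x ∂μ := by
  congr 1
  funext x
  rw [F_ind, fourier_apply, fourier_apply, mul_smul]

theorem exists_ind {V : Set (ℕ → Bool)} (hV : (interior V).Nonempty) :
    ∃ (A : Finset ℕ) (I : ℕ), ∀ B : Finset ℕ, (∀ n < I, (n ∈ B ↔ n ∈ A)) → ind B ∈ V := by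
  obtain ⟨ε0, hε0⟩ := hV
  obtain ⟨J, u, hu, hJ⟩ := isOpen_pi_iff.1 isOpen_interior ε0 hε0
  refine ⟨(Finset.range (J.sup id + 1)).filter (fun n => ε0 n = true), J.sup id + 1,
    fun B hB => interior_subset (hJ fun n hn => ?_)⟩
  have h1 : n ≤ J.sup id := Finset.le_sup (f := id) hn
  have h2 : ind B n = ε0 n := by
    have h3 := hB n (by omega)
    rw [Finset.mem_filter, Finset.mem_range] at h3
    unfold ind
    cases hb : ε0 n
    · rw [hb] at h3
      simp only [Bool.false_eq_true, and_false, iff_false] at h3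
      simp [h3]
    · rw [hb] at h3
      have : n ∈ B := h3.2 ⟨by omega, rfl⟩
      simp [this]
  rw [h2]
  exact (hu n hn).2

end Cantor

end Pool.Agent.H793R3.Fur
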