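import Pool.Agent.H793R3.Fur.D

/-! A rigid ergodic counterexample is a condensation point of ergodic counterexamples. -/

set_option autoImplicit false

open MeasureTheory Filter Topology Set

namespace Pool.Agent.H793R3.Fur

theorem torsion_atom {p : ℕ} (hp : 2 ≤ p) {ν : Measure T} [IsProbabilityMeasure ν]
    (hν : MeasurePreserving (fun x : T => p • x) ν ν) {x0 : T} (h : ν {x0} ≠ 0) :
    ∃ N : ℕ, 1 ≤ N ∧ N • x0 = 0 := by
  by_contra hcon
  push Not at hcon
  have hlt : ∀ i j : ℕ, i < j → p ^ i • x0 ≠ p ^ j • x0 := by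
    intro i j hij he
    have h1 : p ^ i < p ^ j := Nat.pow_lt_pow_right (by omega) hij
    refine hcon (p ^ j - p ^ i) (by omega) ?_
    have h2 : (p ^ j - p ^ i) • x0 + p ^ i • x0 = p ^ j • x0 := by
      rw [← add_smul, Nat.sub_add_cancel h1.le]
    rw [← he] at h2
    simpa using h2
  have hinj : ∀ i j : ℕ, i ≠ j → p ^ i • x0 ≠ p ^ j • x0 := by
    intro i j hij
    rcases lt_or_gt_of_ne hij with h1 | h1
    · exact hlt i j h1
    · exact (hlt j i h1).symm
  have hfin := Measure.finite_const_le_meas_of_disjoint_iUnion ν (pos_iff_ne_zero.2 h)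
    (As := fun n : ℕ => ({p ^ n • x0} : Set T)) (fun n => measurableSet_singleton _)
    (fun i j hij => by
      simp only [Function.onFun, disjoint_singleton]
      exact hinj i j hij) (measure_ne_top _ _)
  have huniv : {n : ℕ | ν {x0} ≤ ν ({p ^ n • x0} : Set T)} = univ := by
    refine eq_univ_of_forall fun n => ?_
    have h1 := (H847R3.XpXq.mp_pow hν n).measure_preimage
      (measurableSet_singleton (p ^ n • x0)).nullMeasurableSet
    change ν {x0} ≤ _
    rw [← h1]
    exact measure_mono (by intro y hy; simp only [mem_singleton_iff] at hy; simp [hy])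
  rw [huniv] at hfin
  exact infinite_univ hfin

theorem coeff_one_of_atom {p q : ℕ} (hp : 2 ≤ p) {ν : Measure T} [IsProbabilityMeasure ν]
    (hνp : MeasurePreserving (fun x : T => p • x) ν ν)
    (hνq : MeasurePreserving (fun x : T => q • x) ν ν)
    (herg : ∀ E : Set T, MeasurableSet E → (fun x : T => p • x) ⁻¹' E =ᵐ[ν] E →
      (fun x : T => q • x) ⁻¹' E =ᵐ[ν] E → ν E = 0 ∨ ν Eᶜ = 0) {x0 : T} (h : ν {x0} ≠ 0) :
    ∃ N : ℕ, 1 ≤ N ∧ ∫ x, fourier (N : ℤ) x ∂ν = 1 := by
  obtain ⟨N, hN, hN0⟩ := torsion_atom hp hνp h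
  refine ⟨N, hN, ?_⟩
  set Z : Set T := {x | N • x = 0} with hZ
  have hZc : ∀ k : ℕ, IsClosed {x : T | k • x = 0} := fun k =>
    isClosed_eq (continuous_const_smul k) continuous_const
  set D : ℕ × ℕ → Set T := fun z => {x | (p ^ z.1 * q ^ z.2 * N) • x = 0} with hD
  have hDpre : ∀ z, D z = (fun x : T => (p ^ z.1 * q ^ z.2) • x) ⁻¹' Z := by
    intro z
    ext x
    simp only [hD, hZ, mem_ofPred_eq, mem_preimage]
    rw [mul_comm, mul_smul]
  have hDm : ∀ z, MeasurableSet (D z) := fun z => (hZc _).measurableSet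
  have hZD : ∀ z, Z ⊆ D z := by
    intro z x hx
    simp only [hD, hZ, mem_ofPred_eq] at *
    rw [mul_smul, hx, smul_zero]
  have hmeas : ∀ z, ν (D z) = ν Z := by
    intro z
    rw [hDpre]
    exact (H847R3.XpXq.mp_S hνp hνq z.1 z.2).measure_preimage (hZc N).measurableSet.nullMeasurableSet
  have hdiff : ∀ z, ν (D z \ Z) = 0 := by
    intro z
    rw [measure_sdiff (hZD z) (hZc N).measurableSet.nullMeasurableSet (measure_ne_top _ _), hmeas,
      tsub_self]
  have hinvp : (fun x : T => p • x) ⁻¹' (⋃ z, D z) = ⋃ z, D z := by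
    ext x
    simp only [mem_preimage, mem_iUnion, hD, mem_ofPred_eq]
    constructor
    · rintro ⟨⟨i, j⟩, hx⟩
      refine ⟨⟨i + 1, j⟩, ?_⟩
      rw [smul_smul] at hx
      simp only at hx ⊢
      rw [show p ^ (i + 1) * q ^ j * N = p ^ i * q ^ j * N * p by ring]
      exact hx
    · rintro ⟨z, hx⟩
      exact ⟨z, by rw [smul_comm, hx, smul_zero]⟩
  have hinvq : (fun x : T => q • x) ⁻¹' (⋃ z, D z) = ⋃ z, D z := by
    ext x
    simp only [mem_preimage, mem_iUnion, hD, mem_ofPred_eq]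
    constructor
    · rintro ⟨⟨i, j⟩, hx⟩
      refine ⟨⟨i, j + 1⟩, ?_⟩
      rw [smul_smul] at hx
      simp only at hx ⊢
      rw [show p ^ i * q ^ (j + 1) * N = p ^ i * q ^ j * N * q by ring]
      exact hx
    · rintro ⟨z, hx⟩
      exact ⟨z, by rw [smul_comm, hx, smul_zero]⟩
  have hUm : MeasurableSet (⋃ z, D z) := MeasurableSet.iUnion hDm
  have hcompl : ν (⋃ z, D z)ᶜ = 0 := by
    rcases herg _ hUm (by rw [hinvp]) (by rw [hinvq]) with h1 | h1
    · exfalso
      refine h (measure_mono_null ?_ h1)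
      rintro y hy
      rw [mem_singleton_iff] at hy
      rw [hy, mem_iUnion]
      exact ⟨(0, 0), hZD _ hN0⟩
    · exact h1
  have hZae : ν Zᶜ = 0 := by
    have h2 : Zᶜ ⊆ (⋃ z, D z)ᶜ ∪ ⋃ z, (D z \ Z) := by
      intro x hx
      by_cases hxU : x ∈ ⋃ z, D z
      · right
        obtain ⟨z, hz⟩ := mem_iUnion.1 hxU
        exact mem_iUnion.2 ⟨z, hz, hx⟩
      · left; exact hxU
    exact measure_mono_null h2 (measure_union_null hcompl (measure_iUnion_null hdiff))
  have hae : ∀ᵐ x ∂ν, (fourier (N : ℤ) x : ℂ) = 1 := by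
    have h3 := measure_eq_zero_iff_ae_notMem.1 hZae
    filter_upwards [h3] with x hx
    have hx' : N • x = 0 := by
      by_contra hne
      exact hx hne
    rw [fourier_apply, natCast_zsmul, hx', AddCircle.toCircle_zero]
    simp
  rw [integral_congr_ae hae]
  simp

section Family

variable {p q : ℕ} {μ : Measure T} {κ : ℕ → ℤ}

theorem F_comm [IsProbabilityMeasure μ] (hκ : Summable (fun n => rig μ (κ n))) (ε : ℕ → Bool)
    {s : ℕ} (hs : MeasurePreserving (fun x : T => s • x) μ μ) :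
    ∀ᵐ x ∂μ, (F_aemeasurable hκ ε).mk _ (s • x) = s • (F_aemeasurable hκ ε).mk _ x := by
  set hF := F_aemeasurable hκ ε with hFdef
  have h1 := hs.quasiMeasurePreserving.ae_eq_comp hF.ae_eq_mk
  filter_upwards [ae_summable hκ, hF.ae_eq_mk, h1] with x hx1 hx2 hx3
  simp only [Function.comp] at hx3
  rw [← hx3, F_smul hx1, hx2]

theorem map_inv [IsProbabilityMeasure μ] (hκ : Summable (fun n => rig μ (κ n))) (ε : ℕ → Bool)
    {s : ℕ} (hs : MeasurePreserving (fun x : T => s • x) μ μ) :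
    MeasurePreserving (fun x : T => s • x) (μ.map (F κ ε)) (μ.map (F κ ε)) := by
  refine ⟨H847R3.XpXq.meas_smul s, ?_⟩
  set hF := F_aemeasurable hκ ε with hFdef
  rw [Measure.map_congr hF.ae_eq_mk, Measure.map_map (H847R3.XpXq.meas_smul s) hF.measurable_mk]
  have h1 : ((fun x : T => s • x) ∘ hF.mk _) =ᵐ[μ] (hF.mk _) ∘ (fun x : T => s • x) := by
    filter_upwards [F_comm hκ ε hs] with x hx
    simp only [Function.comp]
    exact hx.symm
  rw [Measure.map_congr h1, ← Measure.map_map hF.measurable_mk (H847R3.XpXq.meas_smul s), hs.map_eq]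

theorem map_erg (h : ECex p q μ) (hκ : Summable (fun n => rig μ (κ n))) (ε : ℕ → Bool) :
    ∀ E : Set T, MeasurableSet E → (fun x : T => p • x) ⁻¹' E =ᵐ[μ.map (F κ ε)] E →
      (fun x : T => q • x) ⁻¹' E =ᵐ[μ.map (F κ ε)] E →
      μ.map (F κ ε) E = 0 ∨ μ.map (F κ ε) Eᶜ = 0 := by
  have := h.prob
  intro E hE hp hq
  set hF := F_aemeasurable hκ ε with hFdef
  rw [Measure.map_congr hF.ae_eq_mk] at hp hq ⊢
  have key : ∀ s : ℕ, MeasurePreserving (fun x : T => s • x) μ μ →
      (fun x : T => s • x) ⁻¹' E =ᵐ[μ.map (hF.mk _)] E →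
      (fun x : T => s • x) ⁻¹' (hF.mk _ ⁻¹' E) =ᵐ[μ] (hF.mk _ ⁻¹' E) := by
    intro s hs he
    have h1 := ae_of_ae_map hF.measurable_mk.aemeasurable he
    filter_upwards [F_comm hκ ε hs, h1] with x hx1 hx2
    change (hF.mk _ (s • x) ∈ E) = (hF.mk _ x ∈ E)
    rw [hx1]
    exact hx2
  rw [Measure.map_apply hF.measurable_mk hE, Measure.map_apply hF.measurable_mk hE.compl]
  exact h.erg _ (hF.measurable_mk hE) (key p h.invp hp) (key q h.invq hq)

theorem coeff_map [IsProbabilityMeasure μ] (hκ : Summable (fun n => rig μ (κ n))) (ε : ℕ → Bool)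
    (m : ℤ) : ∫ x, fourier m x ∂(μ.map (F κ ε)) = ∫ x, (fourier m (F κ ε x) : ℂ) ∂μ :=
  integral_map (F_aemeasurable hκ ε) (fourier m).continuous.aestronglyMeasurable

end Family

/-- **Condensation.** -/
theorem uncountable_near {p q : ℕ} (hp : 2 ≤ p) (hq : 1 ≤ q) {μ : Measure T} (h : ECex p q μ)
    (hr : ∀ δ : ℝ, 0 < δ → ∃ k : ℤ, k ≠ 0 ∧ rig μ k < δ) (M : ℤ) {δ : ℝ} (hδ : 0 < δ) :
    ¬ {ν : Measure T | ECex p q ν ∧ ∀ m : ℤ, |m| ≤ M →
      ‖∫ x, fourier m x ∂ν - ∫ x, fourier m x ∂μ‖ < δ}.Countable := by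
  have := h.prob
  intro hcount
  obtain ⟨κ, hκ0, hκ, hκ2⟩ := exists_seq hp hq h hr
  set c : (ℕ → Bool) → ℤ → ℂ := fun ε m => ∫ x, (fourier m (F κ ε x) : ℂ) ∂μ with hc
  have hcont : ∀ m, Continuous fun ε => c ε m := fun m => cont_coeff hκ m
  -- the set of good parameters
  set Ω : Set (ℕ → Bool) := ⋂ m ∈ Finset.Icc (-M) M,
    {ε | ‖c ε m - ∫ x, fourier m x ∂μ‖ < δ} with hΩ
  have hΩo : IsOpen Ω := isOpen_biInter_finset fun m _ =>
    isOpen_lt ((hcont m).sub continuous_const).norm continuous_const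
  have hΩn : Ω.Nonempty := by
    refine ⟨ind ∅, ?_⟩
    rw [hΩ, mem_iInter₂]
    intro m _
    change ‖c (ind ∅) m - _‖ < δ
    have : c (ind ∅) m = ∫ x, fourier m x ∂μ := by
      simp only [hc]
      rw [coeff_ind]
      simp
    rw [this, sub_self, norm_zero]
    exact hδ
  -- closed sets with empty interior
  have hZ1 : ∀ d : ℤ → ℂ, IsClosed {ε | ∀ m, c ε m = d m} ∧
      interior {ε | ∀ m, c ε m = d m} = ∅ := by
    intro d
    constructor
    · have : {ε | ∀ m, c ε m = d m} = ⋂ m, {ε | c ε m = d m} := by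
        ext ε; simp
      rw [this]
      exact isClosed_iInter fun m => isClosed_eq (hcont m) continuous_const
    · by_contra hne
      obtain ⟨A, I, hA⟩ := exists_ind (nonempty_iff_ne_empty.2 hne)
      obtain ⟨n, hn, hnA, m, hm⟩ := hκ2 A I
      have h1 := hA A (fun _ _ => Iff.rfl)
      have h2 := hA (insert n A) (fun i hi => by
        rw [Finset.mem_insert]
        constructor
        · rintro (h3 | h3)
          · omega
          · exact h3
        · exact fun h3 => Or.inr h3)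
      apply hm
      have e1 : c (ind A) m = ∫ x, fourier (m * (1 + ∑ i ∈ A, κ i)) x ∂μ := coeff_ind A m
      have e2 : c (ind (insert n A)) m = ∫ x, fourier (m * (1 + ∑ i ∈ A, κ i + κ n)) x ∂μ := by
        have := coeff_ind (κ := κ) (μ := μ) (insert n A) m
        rw [Finset.sum_insert hnA] at this
        rw [hc]
        simp only
        rw [this]
        congr 2
        funext x
        ring_nf
      rw [← e1, ← e2, h1 m, h2 m]
  have hZ2 : ∀ N : ℕ, 1 ≤ N → IsClosed {ε | c ε N = 1} ∧ interior {ε | c ε (N : ℤ) = 1} = ∅ := by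
    intro N hN
    constructor
    · exact isClosed_eq (hcont N) continuous_const
    · by_contra hne
      obtain ⟨A, I, hA⟩ := exists_ind (nonempty_iff_ne_empty.2 hne)
      obtain ⟨n, hn, hnA, -⟩ := hκ2 A I
      have h1 : c (ind A) N = 1 := hA A (fun _ _ => Iff.rfl)
      have h2 : c (ind (insert n A)) N = 1 := hA (insert n A) (fun i hi => by
        rw [Finset.mem_insert]
        constructor
        · rintro (h3 | h3)
          · omega
          · exact h3
        · exact fun h3 => Or.inr h3)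
      have hN' : (N : ℤ) ≠ 0 := by positivity
      have e1 : (1 + ∑ i ∈ A, κ i : ℤ) = 0 := by
        by_contra hne1
        refine coeff_ne_one h.atomless (mul_ne_zero hN' hne1) ?_
        rw [← coeff_ind]; exact h1
      have e2 : (1 + ∑ i ∈ insert n A, κ i : ℤ) = 0 := by
        by_contra hne1
        refine coeff_ne_one h.atomless (mul_ne_zero hN' hne1) ?_
        rw [← coeff_ind]; exact h2
      rw [Finset.sum_insert hnA] at e2
      exact hκ0 n (by omega)
  -- Baire
  set 𝒞 : Set (Measure T) := {ν : Measure T | ECex p q ν ∧ ∀ m : ℤ, |m| ≤ M →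
      ‖∫ x, fourier m x ∂ν - ∫ x, fourier m x ∂μ‖ < δ} with h𝒞
  have hd1 : Dense (⋂ ν ∈ (𝒞 ∪ {volume} : Set (Measure T)),
      {ε | ∀ m, c ε m = ∫ x, fourier m x ∂ν}ᶜ) :=
    dense_biInter_of_isOpen (fun ν _ => (hZ1 _).1.isOpen_compl)
      (hcount.union (countable_singleton _))
      (fun ν _ => interior_eq_empty_iff_dense_compl.1 (hZ1 _).2)
  have hd2 : Dense (⋂ N : ℕ, {ε | c ε ((N + 1 : ℕ) : ℤ) = 1}ᶜ) :=
    dense_iInter_of_isOpen (fun N => (hZ2 (N + 1) (by omega)).1.isOpen_compl)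
      (fun N => interior_eq_empty_iff_dense_compl.1 (hZ2 (N + 1) (by omega)).2)
  have hg1 : IsGδ (⋂ ν ∈ (𝒞 ∪ {volume} : Set (Measure T)),
      {ε | ∀ m, c ε m = ∫ x, fourier m x ∂ν}ᶜ) :=
    IsGδ.biInter (hcount.union (countable_singleton _)) fun ν _ =>
      ((hZ1 _).1.isOpen_compl).isGδ
  have hg2 : IsGδ (⋂ N : ℕ, {ε | c ε ((N + 1 : ℕ) : ℤ) = 1}ᶜ) :=
    IsGδ.iInter fun N => ((hZ2 (N + 1) (by omega)).1.isOpen_compl).isGδ
  have hd := hd1.inter_of_Gδ hg1 hg2 hd2
  obtain ⟨ε, hεΩ, hε1, hε2⟩ := hd.inter_open_nonempty Ω hΩo hΩn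
  -- the measure
  set ν := μ.map (F κ ε) with hν
  have hprob : IsProbabilityMeasure ν := Measure.isProbabilityMeasure_map (F_aemeasurable hκ ε)
  have hcoef : ∀ m, ∫ x, fourier m x ∂ν = c ε m := fun m => coeff_map hκ ε m
  have hnotin : ∀ ρ ∈ (𝒞 ∪ {volume} : Set (Measure T)), ν ≠ ρ := by
    intro ρ hρ he
    have h1 := mem_iInter₂.1 hε1 ρ hρ
    apply h1
    intro m
    rw [← hcoef, he]
  have hne : ν ≠ volume := hnotin _ (Or.inr rfl)
  have hE : ECex p q ν := by
    refine ⟨hprob, fun x => ?_, map_inv hκ ε h.invp, map_inv hκ ε h.invq, map_erg h hκ ε, hne⟩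
    by_contra hx
    obtain ⟨N, hN, hN1⟩ := coeff_one_of_atom hp (map_inv hκ ε h.invp) (map_inv hκ ε h.invq)
      (map_erg h hκ ε) hx
    have h1 := mem_iInter.1 hε2 (N - 1)
    apply h1
    rw [Nat.sub_add_cancel hN]
    change c ε N = 1
    rw [← hcoef]
    exact hN1
  refine hnotin ν (Or.inl ⟨hE, fun m hm => ?_⟩) rfl
  rw [hcoef]
  have h1 := mem_iInter₂.1 hεΩ m (Finset.mem_Icc.2 (abs_le.1 hm))
  exact h1

end Pool.Agent.H793R3.Fur
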