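import Pool.Agent.H793R3.Fur.B

set_option autoImplicit false

open MeasureTheory Filter Topology Pool.Agent.H793R3.Fur

/-!
# Furstenberg's conjecture for measures with many equal dilates

`dil k μ` is the image of `μ` under `x ↦ k x`.  `Spread a` says that `1/N ∑_{n<N} e(a n θ) → 0` for
every irrational `θ`; this holds for instance for `a n = n`, for every non-constant integer
polynomial and for the sequence of the primes.
-/

open Classical in
/-- An atomless `× p`-invariant probability measure `μ` for which the same measure `ν` is equal to
`dil (a n) μ` for a set of `n` which does not have density zero is Lebesgue measure. -/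
theorem Pool.Agent.H793R3.Fur.equalDilates (p : ℕ) (hp : 2 ≤ p)
    (μ ν : Measure UnitAddCircle) (hμ : IsProbabilityMeasure μ) (h0 : ∀ x, μ {x} = 0)
    (hμp : MeasurePreserving (fun x : UnitAddCircle => p • x) μ μ)
    (a : ℕ → ℤ) (ha : Spread a)
    (hν : ¬ Tendsto (fun N : ℕ => (((Finset.range N).filter fun n =>
      a n ≠ 0 ∧ dil (a n) μ = ν).card : ℝ) / N) atTop (𝓝 0)) : μ = volume := by
  by_contra hne
  exact hν (level ha hp h0 hμp hne ν)
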