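import Pool.Agent.H793R3.Fur.E

/-! From Fourier coefficients close to one in absolute value to rigidity; neighbourhoods of Lebesgue
measure. -/

set_option autoImplicit false

open MeasureTheory Filter Topology Set

namespace Pool.Agent.H793R3.Fur

theorem norm_sq_le (z : T) : 8 * ‖z‖ ^ 2 ≤ 1 - ((AddCircle.toCircle z : Circle) : ℂ).re := by
  obtain ⟨x, rfl⟩ := QuotientAddGroup.mk_surjective z
  set t : ℝ := x - round x with ht
  have hz : ((x : ℝ) : T) = ((t : ℝ) : T) := by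
    rw [ht, AddCircle.coe_sub]
    have : (((round x : ℤ) : ℝ) : T) = 0 := by
      rw [AddCircle.coe_eq_zero_iff]
      exact ⟨round x, by simp⟩
    rw [this, sub_zero]
  have hn : ‖((x : ℝ) : T)‖ = |t| := UnitAddCircle.norm_eq
  have ht2 : |t| ≤ 1 / 2 := abs_sub_round x
  change 8 * ‖((x : ℝ) : T)‖ ^ 2 ≤ 1 - ((AddCircle.toCircle ((x : ℝ) : T) : Circle) : ℂ).re
  rw [hn, hz, AddCircle.toCircle_apply_mk]
  have hre : ((Circle.exp (2 * Real.pi / 1 * t) : Circle) : ℂ).re = Real.cos (2 * (Real.pi * |t|)) := by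
    rw [Circle.coe_exp, Complex.exp_ofReal_mul_I_re]
    rw [show 2 * (Real.pi * |t|) = |2 * Real.pi / 1 * t| by
      rw [abs_mul]
      rw [abs_of_pos (by positivity : (0 : ℝ) < 2 * Real.pi / 1)]
      ring]
    rw [Real.cos_abs]
  rw [hre, Real.cos_two_mul]
  have hs : 2 * |t| ≤ Real.sin (Real.pi * |t|) := by
    have h1 := Real.mul_le_sin (x := Real.pi * |t|) (by positivity) (by
      have := Real.pi_pos
      nlinarith)
    have h2 : 2 / Real.pi * (Real.pi * |t|) = 2 * |t| := by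
      field_simp
    rwa [h2] at h1
  have hsq := Real.sin_sq_add_cos_sq (Real.pi * |t|)
  nlinarith [abs_nonneg t, mul_self_le_mul_self (by positivity) hs]

theorem exists_angle {c : ℂ} : ∃ θ : T, (starRingEnd ℂ) ((AddCircle.toCircle θ : Circle) : ℂ) * c =
    ‖c‖ := by
  refine ⟨((Complex.arg c / (2 * Real.pi) : ℝ) : T), ?_⟩
  rw [AddCircle.toCircle_apply_mk, Circle.coe_exp]
  have h1 : (2 * Real.pi / 1 * (Complex.arg c / (2 * Real.pi))) = Complex.arg c := by
    field_simp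
  rw [h1]
  conv_lhs => rw [← Complex.norm_mul_exp_arg_mul_I c]
  rw [← Complex.exp_conj]
  rw [map_mul, Complex.conj_ofReal, Complex.conj_I]
  rw [mul_left_comm, ← Complex.exp_add]
  simp

theorem rigid_of_sup {p : ℕ} (hp : 2 ≤ p) {μ : Measure T} [IsProbabilityMeasure μ]
    (hμp : MeasurePreserving (fun x : T => p • x) μ μ)
    (hs : ∀ η : ℝ, η < 1 → ∃ k : ℤ, k ≠ 0 ∧ η < ‖∫ x, fourier k x ∂μ‖) :
    ∀ δ : ℝ, 0 < δ → ∃ k : ℤ, k ≠ 0 ∧ rig μ k < δ := by
  intro δ hδ
  set a : ℝ := δ / 2 with ha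
  have ha0 : 0 < a := by positivity
  obtain ⟨k, hk, hkη⟩ := hs (1 - 8 * a ^ 2) (by nlinarith [sq_nonneg a, pow_pos ha0 2])
  obtain ⟨θ, hθ⟩ := exists_angle (c := ∫ x, (fourier k x : ℂ) ∂μ)
  have hcz : Continuous fun x : T => k • x - θ := (continuous_zsmul k).sub continuous_const
  have hcn : Continuous fun x : T => ‖k • x - θ‖ := continuous_norm.comp hcz
  have hcs : Continuous fun x : T => ‖k • x - θ‖ ^ 2 := hcn.pow 2
  have hcr : Continuous fun x : T => (((AddCircle.toCircle (k • x - θ) : Circle) : ℂ)).re :=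
    Complex.continuous_re.comp ((continuous_subtype_val.comp AddCircle.continuous_toCircle).comp hcz)
  have hre : ∫ x, (((AddCircle.toCircle (k • x - θ) : Circle) : ℂ)).re ∂μ =
      ‖∫ x, (fourier k x : ℂ) ∂μ‖ := by
    have h1 : ∀ x : T, ((AddCircle.toCircle (k • x - θ) : Circle) : ℂ) =
        (starRingEnd ℂ) ((AddCircle.toCircle θ : Circle) : ℂ) * fourier k x := by
      intro x
      rw [sub_eq_add_neg, AddCircle.toCircle_add, fourier_apply, AddCircle.toCircle_neg]
      rw [Circle.coe_mul, Circle.coe_inv_eq_conj, mul_comm]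
    have h2 : ∫ x, ((AddCircle.toCircle (k • x - θ) : Circle) : ℂ) ∂μ =
        ((‖∫ x, (fourier k x : ℂ) ∂μ‖ : ℝ) : ℂ) := by
      simp_rw [h1]
      rw [integral_const_mul, hθ]
    have h3 := integral_re (𝕜 := ℂ) (μ := μ)
      (f := fun x : T => ((AddCircle.toCircle (k • x - θ) : Circle) : ℂ))
      (H847R3.XpXq.integrable_of_contC
        ((continuous_subtype_val.comp AddCircle.continuous_toCircle).comp hcz) μ)
    have h4 : ∫ x, (((AddCircle.toCircle (k • x - θ) : Circle) : ℂ)).re ∂μ =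
        (∫ x, ((AddCircle.toCircle (k • x - θ) : Circle) : ℂ) ∂μ).re := by
      simpa using h3
    rw [h4, h2, Complex.ofReal_re]
  have hsqint : 8 * ∫ x, ‖k • x - θ‖ ^ 2 ∂μ < 8 * a ^ 2 := by
    have h1 : ∫ x, 8 * ‖k • x - θ‖ ^ 2 ∂μ ≤
        ∫ x, (1 - (((AddCircle.toCircle (k • x - θ) : Circle) : ℂ)).re) ∂μ := by
      refine integral_mono (H847R3.XpXq.integrable_of_cont (continuous_const.mul hcs) μ)
        (H847R3.XpXq.integrable_of_cont (continuous_const.sub hcr) μ) fun x => ?_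
      exact norm_sq_le _
    rw [integral_const_mul, integral_sub (integrable_const _)
      (H847R3.XpXq.integrable_of_cont hcr μ), hre] at h1
    simp only [integral_const, smul_eq_mul, mul_one] at h1
    have h2 : μ.real univ = 1 := by simp
    rw [h2] at h1
    linarith
  have hD : ∫ x, ‖k • x - θ‖ ∂μ < a := by
    have h1 : ∫ x, ‖k • x - θ‖ ∂μ ≤ ∫ x, (‖k • x - θ‖ ^ 2 / (2 * a) + a / 2) ∂μ := by
      refine integral_mono (H847R3.XpXq.integrable_of_cont hcn μ)
        (H847R3.XpXq.integrable_of_cont ((hcs.div_const _).add continuous_const) μ) fun x => ?_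
      change ‖k • x - θ‖ ≤ ‖k • x - θ‖ ^ 2 / (2 * a) + a / 2
      rw [div_add_div _ _ (by positivity) (by norm_num), le_div_iff₀ (by positivity)]
      nlinarith [sq_nonneg (‖k • x - θ‖ - a)]
    have h2 : ∫ x, (‖k • x - θ‖ ^ 2 / (2 * a) + a / 2) ∂μ =
        (∫ x, ‖k • x - θ‖ ^ 2 ∂μ) / (2 * a) + a / 2 := by
      rw [integral_add (H847R3.XpXq.integrable_of_cont (hcs.div_const _) μ) (integrable_const _),
        integral_div]
      simp
    rw [h2] at h1
    have h3 : (∫ x, ‖k • x - θ‖ ^ 2 ∂μ) / (2 * a) < a / 2 := by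
      rw [div_lt_iff₀ (by positivity)]
      nlinarith
    linarith
  have hDp : ∫ x, ‖k • (p • x) - θ‖ ∂μ = ∫ x, ‖k • x - θ‖ ∂μ := by
    conv_rhs => rw [← hμp.map_eq]
    rw [integral_map hμp.measurable.aemeasurable hcn.aestronglyMeasurable]
  refine ⟨k * ((p : ℤ) - 1), mul_ne_zero hk (by omega), ?_⟩
  have hcp : Continuous fun x : T => ‖k • (p • x) - θ‖ := hcn.comp (continuous_const_smul p)
  have hle : rig μ (k * ((p : ℤ) - 1)) ≤ ∫ x, (‖k • (p • x) - θ‖ + ‖k • x - θ‖) ∂μ := by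
    unfold rig
    refine integral_mono (H847R3.XpXq.integrable_of_cont
      (continuous_norm.comp (continuous_zsmul _)) μ)
      (H847R3.XpXq.integrable_of_cont (hcp.add hcn) μ) fun x => ?_
    have e : (k * ((p : ℤ) - 1)) • x = (k • (p • x) - θ) - (k • x - θ) := by
      rw [mul_sub, mul_one, sub_smul, mul_smul, natCast_zsmul]
      abel
    change ‖(k * ((p : ℤ) - 1)) • x‖ ≤ _
    rw [e]
    exact norm_sub_le _ _
  rw [integral_add (H847R3.XpXq.integrable_of_cont hcp μ)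
    (H847R3.XpXq.integrable_of_cont hcn μ), hDp] at hle
  have : 2 * a = δ := by rw [ha]; ring
  linarith

theorem ECex.dil {p q : ℕ} (hp : 2 ≤ p) {μ : Measure T} (h : ECex p q μ) {k : ℤ} (hk : k ≠ 0) :
    ECex p q (dil k μ) := by
  have := h.prob
  refine ⟨Measure.isProbabilityMeasure_map (meas _).aemeasurable, fun x => ?_, inv_dil h.invp k,
    inv_dil h.invq k, fun E hE hpE hqE => ?_, fun he => h.ne (eq_volume_of_dil hp h.invp hk he)⟩
  · unfold Fur.dil
    rw [Measure.map_apply (meas k) (measurableSet_singleton x)]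
    rcases Set.eq_empty_or_nonempty ((fun x : T => k • x) ⁻¹' {x}) with he | ⟨y0, hy0⟩
    · rw [he]; simp
    · have hsub : (fun x : T => k • x) ⁻¹' {x} ⊆ {y : T | ∃ r : ℚ, y0 - y = ((r : ℝ) : T)} := by
        intro y hy
        refine rat_of_torsion hk ?_
        simp only [mem_preimage, mem_singleton_iff] at hy hy0
        rw [smul_sub, hy, hy0, sub_self]
      have : NullSingletonClass μ := ⟨h.atomless⟩
      exact measure_mono_null hsub ((countable_rat y0).measure_zero μ)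
  · unfold Fur.dil at hpE hqE ⊢
    rw [Measure.map_apply (meas k) hE, Measure.map_apply (meas k) hE.compl]
    have hcomm : ∀ s : ℕ, (fun x : T => s • x) ⁻¹' E =ᵐ[μ.map (fun x : T => k • x)] E →
        (fun x : T => s • x) ⁻¹' ((fun x : T => k • x) ⁻¹' E) =ᵐ[μ] (fun x : T => k • x) ⁻¹' E := by
      intro s hs
      have h1 := ae_of_ae_map (meas k).aemeasurable hs
      filter_upwards [h1] with x hx
      change (k • (s • x) ∈ E) = (k • x ∈ E)
      rw [smul_comm]
      exact hx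
    exact h.erg _ ((meas k) hE) (hcomm p hpE) (hcomm q hqE)

theorem rigid_dil {μ : Measure T} [IsProbabilityMeasure μ] {n : ℤ} (hn : n ≠ 0)
    (hr : ∀ δ : ℝ, 0 < δ → ∃ k : ℤ, k ≠ 0 ∧ rig μ k < δ) :
    ∀ δ : ℝ, 0 < δ → ∃ k : ℤ, k ≠ 0 ∧ rig (dil n μ) k < δ := by
  intro δ hδ
  have hn' : (0 : ℝ) < |(n : ℝ)| := by positivity
  obtain ⟨k, hk, hkδ⟩ := hr (δ / |(n : ℝ)|) (by positivity)
  refine ⟨k, hk, ?_⟩
  have h1 : rig (dil n μ) k ≤ |(n : ℝ)| * rig μ k := by
    unfold rig dil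
    have hc0 : Continuous fun x : T => ‖k • x‖ := continuous_norm.comp (continuous_zsmul k)
    rw [integral_map (meas n).aemeasurable hc0.aestronglyMeasurable, ← integral_const_mul]
    refine integral_mono (H847R3.XpXq.integrable_of_cont
      (continuous_norm.comp ((continuous_zsmul k).comp (continuous_zsmul n))) μ)
      (H847R3.XpXq.integrable_of_cont (continuous_const.mul
        (continuous_norm.comp (continuous_zsmul k))) μ) fun x => ?_
    change ‖k • (n • x)‖ ≤ |(n : ℝ)| * ‖k • x‖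
    rw [smul_comm]
    have := norm_zsmul_le n (k • x)
    rwa [Int.norm_eq_abs] at this
  calc rig (dil n μ) k ≤ |(n : ℝ)| * rig μ k := h1
    _ < |(n : ℝ)| * (δ / |(n : ℝ)|) := by gcongr
    _ = δ := by field_simp

open Classical in
theorem exists_near {μ : Measure T} [IsProbabilityMeasure μ] (h0 : ∀ x, μ {x} = 0) (M : ℤ)
    {ε : ℝ} (hε : 0 < ε) : ∃ n : ℤ, n ≠ 0 ∧ ∀ m : ℤ, m ≠ 0 → |m| ≤ M →
      ‖∫ x, fourier m x ∂(dil n μ)‖ < ε := by
  by_contra hcon
  push Not at hcon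
  set a : ℕ → ℤ := fun n => (n : ℤ) with ha
  have hsp : Spread a := spread_natCast
  have h1 : Tendsto (fun N : ℕ => ∑ m ∈ (Finset.Icc (-M) M).filter (fun m => m ≠ 0),
      (((Finset.range N).filter fun n =>
        ε ≤ ‖∫ x, fourier m x ∂(dil (a n) μ)‖).card : ℝ) / N) atTop (𝓝 0) := by
    have := tendsto_finsetSum ((Finset.Icc (-M) M).filter (fun m => m ≠ 0))
      (f := fun (m : ℤ) (N : ℕ) => (((Finset.range N).filter fun n =>
        ε ≤ ‖∫ x, fourier m x ∂(dil (a n) μ)‖).card : ℝ) / N) (a := fun _ => (0 : ℝ))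
      (x := atTop) fun m hm => few_large hsp h0 (Finset.mem_filter.1 hm).2 hε
    simpa using this
  have h3 : Tendsto (fun N : ℕ => (1 : ℝ) / N) atTop (𝓝 0) :=
    tendsto_const_div_atTop_nhds_zero_nat 1
  have hsum := h1.add h3
  simp only [add_zero] at hsum
  have hev := hsum.eventually (gt_mem_nhds (show (0 : ℝ) < 1 by norm_num))
  obtain ⟨N, hN, hN1⟩ := (hev.and (eventually_ge_atTop 1)).exists
  have hNpos : (0 : ℝ) < N := by exact_mod_cast hN1
  have hcover : Finset.range N ⊆ (((Finset.Icc (-M) M).filter (fun m => m ≠ 0)).biUnion fun m =>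
      (Finset.range N).filter fun n => ε ≤ ‖∫ x, fourier m x ∂(dil (a n) μ)‖) ∪ {0} := by
    intro n hn
    simp only [Finset.mem_union, Finset.mem_biUnion, Finset.mem_filter, Finset.mem_singleton,
      Finset.mem_Icc]
    by_cases hn0 : n = 0
    · right; exact hn0
    left
    obtain ⟨m, hm0, hmM, hm⟩ := hcon (a n) (by simp [ha, hn0])
    exact ⟨m, ⟨⟨(abs_le.1 hmM).1, (abs_le.1 hmM).2⟩, hm0⟩, hn, hm⟩
  have hcard : (N : ℝ) ≤ ∑ m ∈ (Finset.Icc (-M) M).filter (fun m => m ≠ 0),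
      (((Finset.range N).filter fun n => ε ≤ ‖∫ x, fourier m x ∂(dil (a n) μ)‖).card : ℝ) + 1 := by
    have h4 := Finset.card_le_card hcover
    rw [Finset.card_range] at h4
    have h5 := h4.trans ((Finset.card_union_le _ _).trans (add_le_add
      Finset.card_biUnion_le (Finset.card_singleton 0).le))
    exact_mod_cast h5
  rw [← Finset.sum_div, ← add_div, div_lt_one hNpos] at hN
  linarith

/-- **Neighbourhoods of Lebesgue measure.** -/
theorem uncountable_leb {p q : ℕ} (hp : 2 ≤ p) (hq : 1 ≤ q) {μ : Measure T} (h : ECex p q μ)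
    (hr : ∀ δ : ℝ, 0 < δ → ∃ k : ℤ, k ≠ 0 ∧ rig μ k < δ) (M : ℤ) {ε : ℝ} (hε : 0 < ε) :
    ¬ {ν : Measure T | ECex p q ν ∧ ∀ m : ℤ, m ≠ 0 → |m| ≤ M →
      ‖∫ x, fourier m x ∂ν‖ < ε}.Countable := by
  have := h.prob
  obtain ⟨n, hn, hnear⟩ := exists_near h.atomless M (half_pos hε)
  have h1 := uncountable_near hp hq (h.dil hp hn) (rigid_dil hn hr) M (half_pos hε)
  intro hc
  refine h1 (hc.mono ?_)
  rintro ν ⟨hν1, hν2⟩
  refine ⟨hν1, fun m hm hmM => ?_⟩
  have h2 := hν2 m hmM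
  have h3 := hnear m hm hmM
  have h4 : ∫ x, (fourier m x : ℂ) ∂ν = (∫ x, fourier m x ∂ν - ∫ x, fourier m x ∂(dil n μ)) +
      ∫ x, fourier m x ∂(dil n μ) := by ring
  rw [h4]
  refine (norm_add_le _ _).trans_lt ?_
  linarith

end Pool.Agent.H793R3.Fur
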